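import Pool.Agent.Helper97_WHT.Stmt

/-!
# Squad WHT, row MEA: the mean value bound
-/

set_option autoImplicit false

open scoped BigOperators

namespace Pool.Agent.WHT.H97

open Pool.Agent.DEN Pool.Agent.TMP

section
variable {r : ℕ} {C : Matrix (Fin r) (Fin r) ℤ} {K : Type} [Field K]

/-- the operator of a kernel -/
noncomputable def TT (k : XX C K → XX C K → ℂ) (f : XX C K → ℂ) : XX C K → ℂ :=
  fun x => ∑ᶠ y, k x y * f y

/-- the function of a kernel -/
noncomputable def fk (k : XX C K → XX C K → ℂ) : grp C K → ℂ := fun g => k (oo C K) (g • oo C K)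

theorem TT_comp {k k' : XX C K → XX C K → ℂ} (hk : IsKer k) (hk' : IsKer k') (f : XX C K → ℂ) :
    TT k (TT k' f) = TT (kmul k k') f := by
  classical
  funext x
  set A : Finset (XX C K) := (hk.fin x).toFinset with hA
  set B : Finset (XX C K) := A.biUnion fun y => (hk'.fin y).toFinset with hB
  have hAm : ∀ y, k x y ≠ 0 → y ∈ A := fun y hy => (Set.Finite.mem_toFinset _).2 hy
  have hBm : ∀ y ∈ A, ∀ z, k' y z ≠ 0 → z ∈ B := fun y hy z hz =>
    Finset.mem_biUnion.2 ⟨y, hy, (Set.Finite.mem_toFinset _).2 hz⟩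
  have h1 : TT k (TT k' f) x = ∑ y ∈ A, k x y * TT k' f y := by
    show ∑ᶠ y, k x y * TT k' f y = _
    apply finsum_eq_sum_of_support_subset
    intro y hy
    exact hAm y (left_ne_zero_of_mul hy)
  have h2 : ∀ y ∈ A, TT k' f y = ∑ z ∈ B, k' y z * f z := by
    intro y hy
    show ∑ᶠ z, k' y z * f z = _
    apply finsum_eq_sum_of_support_subset
    intro z hz
    exact hBm y hy z (left_ne_zero_of_mul hz)
  have h3 : ∀ z, kmul k k' x z = ∑ y ∈ A, k x y * k' y z := by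
    intro z
    show ∑ᶠ y, k x y * k' y z = _
    apply finsum_eq_sum_of_support_subset
    intro y hy
    exact hAm y (left_ne_zero_of_mul hy)
  have h4 : TT (kmul k k') f x = ∑ z ∈ B, kmul k k' x z * f z := by
    show ∑ᶠ z, kmul k k' x z * f z = _
    apply finsum_eq_sum_of_support_subset
    intro z hz
    have hz1 : kmul k k' x z ≠ 0 := left_ne_zero_of_mul hz
    rw [h3] at hz1
    obtain ⟨y, hy, hy2⟩ := Finset.exists_ne_zero_of_sum_ne_zero hz1
    exact hBm y hy z (right_ne_zero_of_mul hy2)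
  rw [h1, h4, Finset.sum_congr rfl fun y hy => by rw [h2 y hy]]
  simp only [Finset.mul_sum, h3, Finset.sum_mul]
  rw [Finset.sum_comm]
  exact Finset.sum_congr rfl fun z _ => Finset.sum_congr rfl fun y _ => by ring

end

section
variable {r : ℕ} {C : Matrix (Fin r) (Fin r) ℤ} {K : Type} [Field K] [Finite K]

theorem kop_TT (hC : SimplyLaced C) {k : XX C K → XX C K → ℂ} (hk : IsKer k) (f : XX C K → ℂ) :
    H6.kop (maxK C K) (fk k) f = TT k f := by
  funext x
  show ∑ᶠ y : XX C K, fk k (x.out⁻¹ * y.out) * f y = ∑ᶠ y, k x y * f y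
  refine finsum_congr fun y => ?_
  rw [((hKhk r C hC K).1 k hk).2.1 x y]
  rfl

theorem good_fk (hC : SimplyLaced C) {k : XX C K → XX C K → ℂ} (hk : IsKer k) :
    H6.Good (maxK C K) (fk k) := by
  have h1 := (hKhk r C hC K).1 k hk
  have h2 := (hKhk r C hC K).1 (kst k) ((hKer r C hC K).2.2.1 k hk)
  refine ⟨h1.1.1, h1.1.2, ?_⟩
  refine h2.1.2.subset ?_
  intro y hy h
  apply hy
  have h3 : kst k (oo C K) (y.out • oo C K) = 0 := h
  have h4 := congrFun h1.2.2.2 y.out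
  have h5 : DEN.TMP.sta (fun g : grp C K => k (oo C K) (g • oo C K)) y.out = 0 := by
    rw [h4]; exact h3
  have h6 : (starRingEnd ℂ) (fk k (y.out)⁻¹) = 0 := h5
  exact (map_eq_zero _).1 h6

theorem star_fk (hC : SimplyLaced C) {k : XX C K → XX C K → ℂ} (hk : IsKer k) :
    H6.star (fk k) = fk (kst k) := ((hKhk r C hC K).1 k hk).2.2.2

theorem rad_mul (hC : SimplyLaced C) {k : XX C K → XX C K → ℂ} (hk : IsKer k) {ρ : ℕ}
    (hr : Rad k ρ) : Rad (kmul k (kst k)) (2 * ρ) := by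
  intro g hg
  have h1 : ∑ᶠ y, k (oo C K) y * kst k y (g • oo C K) ≠ 0 := hg
  obtain ⟨y, hy⟩ : ∃ y, k (oo C K) y * kst k y (g • oo C K) ≠ 0 := by
    by_contra hne
    push Not at hne
    exact h1 (by simp [hne])
  obtain ⟨h, rfl⟩ := exists_smul y
  have a1 := hr h (left_ne_zero_of_mul hy)
  have a2 : k (g • oo C K) (h • oo C K) ≠ 0 := by
    intro h0
    apply right_ne_zero_of_mul hy
    show (starRingEnd ℂ) (k (g • oo C K) (h • oo C K)) = 0
    rw [h0, map_zero]
  have a3 : k (oo C K) ((g⁻¹ * h) • oo C K) ≠ 0 := by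
    have := hk.inv g⁻¹ (g • oo C K) (h • oo C K)
    rw [inv_smul_smul, ← mul_smul] at this
    rw [this]
    exact a2
  have a4 := hr _ a3
  have hB := H22.hBdg r C hC K
  have e1 : h * (g⁻¹ * h)⁻¹ = g := by group
  have e2 : (g⁻¹ * h) * h⁻¹ = g⁻¹ := by group
  have b1 := hB.2.1 _ _ _ _ a1.1 a4.2
  have b2 := hB.2.1 _ _ _ _ a4.1 a1.2
  rw [e1] at b1
  rw [e2] at b2
  have e3 : ((2 * ρ : ℕ) : ℤ) = (ρ : ℤ) + ρ := by push_cast; ring
  rw [e3]
  exact ⟨b1, b2⟩

/-- the value of the Satake transform of `k k*` at `0` -/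
theorem sat_star (hC : SimplyLaced C) {k : XX C K → XX C K → ℂ} (hk : IsKer k) :
    sat hC (kmul k (kst k)) 0 = ((∑ᶠ l, ‖sat hC k l‖ ^ 2 : ℝ) : ℂ) := by
  have hS := hSmu r C hC K
  have hks := (hKer r C hC K).2.2.1 k hk
  rw [hS.2.1 k (kst k) hk hks 0]
  have hfin : (Function.support fun l => ‖sat hC k l‖ ^ 2).Finite := by
    refine (hS.1 k hk).subset fun l hl => ?_
    intro h0
    apply hl
    show ‖sat hC k l‖ ^ 2 = 0
    rw [h0, norm_zero, zero_pow two_ne_zero]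
  have h1 : ((∑ᶠ l, ‖sat hC k l‖ ^ 2 : ℝ) : ℂ) = ∑ᶠ l, ((‖sat hC k l‖ ^ 2 : ℝ) : ℂ) :=
    AddMonoidHom.map_finsum Complex.ofRealHom.toAddMonoidHom hfin
  rw [h1]
  refine finsum_congr fun l => ?_
  rw [(hFla r C hC K k hk).1 (0 - l)]
  have e : -(0 - l) = l := by abel
  rw [e, Complex.mul_conj, Complex.normSq_eq_norm_sq]

/-- a deep point is good -/
theorem deep_good (hgen : GenxStmt) (hC : SimplyLaced C) {N : Polynomial K} {χ : grp C K → ℂ}
    (hχ : IsChi N χ) {m : Fin r → ℤ} {D : ℕ} (hD : Deep hC χ m D) : WHT.Good hC χ m := by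
  obtain ⟨_, _, g3, g4⟩ := hgen r C hC K
  refine ⟨fun i => le_trans (Int.natCast_nonneg D) (hD i).1, fun u hu hu2 => ?_⟩
  rw [g3 N χ hχ u hu]
  refine Finset.prod_eq_one fun i _ => (hD i).2 _ ?_
  exact (H22.hF1 K).2.2.2.2.1 _ _ _ (by have := Int.natCast_nonneg D; linarith) (g4 u hu m hu2 i)

end

theorem mea (hunf : UnfStmt) (hhec : HecStmt) (hgen : GenxStmt) : MeaStmt := by
  classical
  intro r C hC K _ _ N hN χ hχ m ρ hD n f hf k hk hr lam hlam
  have hN0 : N ≠ 0 := by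
    rintro rfl
    simp at hN
  have hgood := deep_good hgen hC hχ hD
  obtain ⟨hvol, P, hPV, hP, hun, hun2⟩ := hunf r C hC K N hN χ hχ m hgood
  have hst : ∀ x : XX C K, Finite (MulAction.stabilizer (cong C K 1 N) x) :=
    (H22.hFin r C hC K).2.1 N
  have hks := (hKer r C hC K).2.2.1 k hk
  have hkk := (hKer r C hC K).2.1 k (kst k) hk hks
  have hfPV : ∀ j, H6.PV (cong C K 1 N) (f j) := fun j =>
    ⟨(hf.1 j).1, H22.hFsp r C hC K N hN0 (f j) (hf.1 j)⟩
  have hgk := good_fk hC hk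
  have hgks := good_fk hC hks
  set g : XX C K → ℂ := TT (kst k) P with hg
  have hgPV : H6.PV (cong C K 1 N) g := by
    rw [hg, ← kop_TT hC hks]
    exact H6.kop_PV hst hgks hPV
  have hkkPV : H6.PV (cong C K 1 N) (TT (kmul k (kst k)) P) := by
    rw [← kop_TT hC hkk]
    exact H6.kop_PV hst (good_fk hC hkk) hPV
  -- adjointness
  have hadj : ∀ j, H6.pet (cong C K 1 N) (f j) g = (starRingEnd ℂ) (lam j) *
      H6.pet (cong C K 1 N) (f j) P := by
    intro j
    have h1 := H6.kop_adj hst hgk (hfPV j) hPV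
    rw [star_fk hC hk, kop_TT hC hks, kop_TT hC hk] at h1
    rw [hg, ← h1]
    have h2 : TT k (f j) = fun x => lam j * f j x := by
      funext x
      exact hlam j x
    rw [h2]
    unfold H6.pet
    rw [mul_finsum]
    refine finsum_congr fun o => ?_
    rw [map_mul]
    ring
  have hnorm : ∀ j, ‖H6.pet (cong C K 1 N) (f j) g‖ ^ 2 = ‖lam j‖ ^ 2 * ‖wh hC N χ m (f j)‖ ^ 2 := by
    intro j
    rw [hadj j, norm_mul, RCLike.norm_conj, mul_pow]
    congr 2
    rw [← hun (f j) (hfPV j).1, ← H6.pet_conj (hfPV j), RCLike.norm_conj]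
  -- the norm of `g`
  have hng : H6.nsq (cong C K 1 N) g = (∑ᶠ l, ‖sat hC k l‖ ^ 2) * vol hC N m := by
    have h1 := H6.pet_self hgPV
    have h2 := H6.kop_adj hst hgks hPV hgPV
    rw [star_fk hC hks, kop_TT hC hks, ← hg] at h2
    have h3 : kst (kst k) = k := by
      funext x y
      show (starRingEnd ℂ) ((starRingEnd ℂ) (k x y)) = k x y
      rw [Complex.conj_conj]
    rw [h3, kop_TT hC hk, hg, TT_comp hk hks, ← hg, hun _ hkkPV.1,
      hun2 _ (sat hC (kmul k (kst k)) 0) (hhec r C hC K N χ hχ m (2 * ρ) hD _ hkk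
        (rad_mul hC hk hr) P hP), sat_star hC hk] at h2
    rw [h1] at h2
    exact_mod_cast h2
  -- Bessel
  let D : Finset (MulAction.orbitRel.Quotient (cong C K 1 N) (XX C K)) :=
    (Finset.univ.biUnion fun j => (hfPV j).2.toFinset) ∪ hgPV.2.toFinset
  have hD1 : ∀ j o, f j o.out ≠ 0 → o ∈ D := fun j o ho =>
    Finset.mem_union_left _ (Finset.mem_biUnion.2 ⟨j, Finset.mem_univ _,
      (Set.Finite.mem_toFinset _).2 ho⟩)
  have hD2 : ∀ o : MulAction.orbitRel.Quotient (cong C K 1 N) (XX C K), g o.out ≠ 0 → o ∈ D :=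
    fun o ho => Finset.mem_union_right _ ((Set.Finite.mem_toFinset _).2 ho)
  have hB := H6.bessel hst n f D hD1 (fun i j => hf.2 i j) g
  rw [← H6.nsq_eq D hD2, hng] at hB
  refine le_trans (le_of_eq ?_) hB
  exact Finset.sum_congr rfl fun j _ => (hnorm j).symm

end Pool.Agent.WHT.H97
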