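import Pool.Agent.Helper97_WHT.Stmt

/-!
# Squad WHT, row DET: detection of the characters which are not tempered
-/

set_option autoImplicit false

open scoped BigOperators

namespace Pool.Agent.WHT.H97

open Pool.Agent.DEN Pool.Agent.TMP Pool.Agent.TMP.H27

theorem det : DetStmt := by
  classical
  intro r C hC
  obtain ⟨c₀, hc₀⟩ := H29.elim r C hC
  set B : ℕ := ∑ i, ∑ j, (C i j).natAbs with hB
  refine ⟨c₀ + 2 * (B + 1) * c₀ + 1, by omega, ?_⟩
  intro K _ _ n hn
  obtain ⟨L, p, hp1, hp2, hp3⟩ := hc₀ n hn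
  have hK := hKer r C hC K
  have hS := hSmu r C hC K
  have hH := hKhk r C hC K
  -- the kernels
  have hex : ∀ i : Fin L, ∃ k : XX C K → XX C K → ℂ, IsKer k ∧ (∀ l, sat hC k l = (p i).1.coeff l) ∧
      ∀ y, k (oo C K) y ≠ 0 → ∃ g ∈ maxK C K, ∃ l : Fin r → ℤ,
        ip C l l ≤ (B : ℤ) * ((c₀ * n : ℕ) : ℤ) ^ 2 ∧ y = g • tp hC K l := by
    intro i
    have h1 : {l | (p i).1.coeff l ≠ 0}.Finite := by
      have : {l | (p i).1.coeff l ≠ 0} = ((p i).1.coeff.support : Set (Fin r → ℤ)) := by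
        ext l; simp
      rw [this]
      exact Finset.finite_toSet _
    have h2 : ∀ j l, (p i).1.coeff (sf C j l) = (p i).1.coeff l := by
      intro j l
      have := (mem_invAlg hC (p i).1).1 (p i).2 j l
      rw [← this]
      unfold sf
      rw [hC.ip_comm (al j) l]
    refine hSur r C hC K (fun l => (p i).1.coeff l) h1 h2 _ ?_
    intro l hl
    apply ip_le
    intro j
    have := hp1 i l hl j
    push_cast
    exact this
  choose k hk1 hk2 hk3 using hex
  refine ⟨L, k, hk1, ?_, ?_, ?_⟩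
  · intro i
    have hn1 : (1 : ℤ) ≤ n := by exact_mod_cast hn
    have hrad : HeckeInf (fn (k i)) ((c₀ + 2 * (B + 1) * c₀ + 1) * n) := by
      apply hecke_radius TMP.hRad hC (hH.1 _ (hk1 i)).1 _ _ _ (hk3 i)
      have hB0 : (0 : ℤ) ≤ B := Int.natCast_nonneg _
      have hc0 : (0 : ℤ) ≤ c₀ := Int.natCast_nonneg _
      have hx : (0 : ℤ) ≤ ((c₀ : ℤ) * n) ^ 2 := by positivity
      have h1 : 2 * ((B : ℤ) * ((c₀ * n : ℕ) : ℤ) ^ 2) ≤ (2 * ((B : ℤ) + 1) * c₀ * n) ^ 2 := by
        push_cast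
        nlinarith
      have h2 : (2 * ((B : ℤ) + 1) * c₀ * n) ^ 2 ≤
          (((c₀ + 2 * (B + 1) * c₀ + 1) * n : ℕ) : ℤ) ^ 2 := by
        apply pow_le_pow_left₀ (by positivity)
        push_cast
        apply mul_le_mul_of_nonneg_right _ (by positivity)
        linarith
      exact h1.trans h2
    intro g hg
    exact ⟨fun v hv => (hrad.2.2 g hg v hv).1, fun v hv => (hrad.2.2 g hg v hv).2⟩
  · have h3 : ∀ i, ∑ᶠ l, ‖sat hC (k i) l‖ ^ 2 =
        ∑ μ ∈ (p i).1.coeff.support, ‖(p i).1.coeff μ‖ ^ 2 := by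
      intro i
      rw [finsum_eq_sum_of_support_subset (s := (p i).1.coeff.support)]
      · apply Finset.sum_congr rfl
        intro l _
        rw [hk2]
      · intro m hm
        simp only [Function.mem_support, ne_eq] at hm
        rw [Finset.mem_coe, Finsupp.mem_support_iff]
        intro h
        exact hm (by rw [hk2, h]; simp)
    simp only [h3]
    refine hp2.trans ?_
    apply div_le_div_of_nonneg_right _ (Nat.cast_nonneg _)
    push_cast
    have : (0 : ℝ) ≤ 2 * (B + 1) * c₀ := by positivity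
    linarith
  · intro lam hl1 hl2 hl3
    obtain ⟨χ, hχ⟩ := exists_chi hKhk hKer hSmu hPln hSur hC lam hl1
    rcases hp3 χ (by
      intro a b hab
      obtain ⟨ka, ha1, ha2⟩ := exists_ker (K := K) hSur hC a
      have h1 := hK.2.2.1 _ ha1
      rw [hχ a ka ha1 ha2, hχ b (kst ka) h1 (by
        intro l
        rw [(hFla r C hC K _ ha1).1 l, ha2, hab])]
      have h2 := hl2 (fn ka) (hH.1 _ ha1).1
      rw [← h2]
      exact congrArg lam (hH.1 _ ha1).2.2.2.symm) with ⟨ψ, hψ1, hψ2⟩ | ⟨i, hi⟩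
    · exfalso
      apply hl3
      intro κ τ hτ hκ hN
      obtain ⟨k', hk', hκk, hkn⟩ := hH.2.2.2 κ hκ
      have hfin := hS.1 _ hk'
      let a : CQ r := AddMonoidAlgebra.ofCoeff (Finsupp.ofSupportFinite (sat hC k') hfin)
      have ha : a ∈ invAlg C := by
        rw [mem_invAlg hC]
        intro i μ
        have := hWin r C hC K k' hk' i μ
        unfold sf at this
        rw [hC.ip_comm (al i) μ] at this
        exact this
      have h1 : χ ⟨a, ha⟩ = lam (fn k') := hχ ⟨a, ha⟩ k' hk' (fun l => rfl)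
      have h2 : κ = fn k' := funext hκk
      rw [h2, ← h1, ← hψ1, psi_eq]
      exact (hFla r C hC K _ hk').2 τ hτ (hkn τ hN) (fun l => ψ (AddMonoidAlgebra.single l 1))
        (by
          intro l m
          rw [← map_mul, AddMonoidAlgebra.single_mul_single, mul_one]) hψ2
    · refine ⟨i, ?_⟩
      have h1 := hχ (p i) (k i) (hk1 i) (hk2 i)
      have h2 : lam (fun g : grp C K => k i (oo C K) (g • oo C K)) = lam (fn (k i)) := rfl
      rw [h2, ← h1]
      exact hi

end Pool.Agent.WHT.H97
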