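import Pool.Agent.Helper2_TMP.Asm
import Pool.Agent.Helper22_DEN2.Asm
import Pool.Agent.Helper6_RAM.Adj

/-!
# Squad WHT (MP_eadad4_nt): globally generic cusp forms, Whittaker coefficients - statements

`U = Ug C K`, `t^m o = tp hC K m`, `Hor hC K m = U t^m o`, `Γ(N) = cong C K 1 N`.  For a character `χ`
of `U`, trivial on `U ∩ Γ(N)` and on the stabilizer of `t^m o`, the Whittaker coefficient of `f` at
`t^m o` is the sum of `conj χ f` over the orbits of `U ∩ Γ(N)` on the horocycle, weighted by the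
inverse of the order of the stabilizer.
-/

set_option autoImplicit false

open scoped BigOperators

namespace Pool.Agent.WHT

open Pool.Agent.DEN Pool.Agent.TMP

/-! ## Definitions -/

section
variable {r : ℕ} {C : Matrix (Fin r) (Fin r) ℤ} {K : Type} [Field K]

/-- The group `U ∩ Γ(N)`. -/
noncomputable def U0 (C : Matrix (Fin r) (Fin r) ℤ) (N : Polynomial K) : Subgroup (grp C K) :=
  Ug C K ⊓ cong C K 1 N

/-- `χ` is a unitary character of `U`, trivial on `U ∩ Γ(N)`. -/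
structure IsChi (N : Polynomial K) (χ : grp C K → ℂ) : Prop where
  mul : ∀ u ∈ Ug C K, ∀ v ∈ Ug C K, χ (u * v) = χ u * χ v
  norm_one : ∀ u ∈ Ug C K, ‖χ u‖ = 1
  lev : ∀ u ∈ U0 C N, χ u = 1

/-- `m` is dominant and `χ` is trivial on the stabilizer of `t^m o` in `U`. -/
def Good (hC : SimplyLaced C) (χ : grp C K → ℂ) (m : Fin r → ℤ) : Prop :=
  IsDom C m ∧ ∀ u ∈ Ug C K, u • tp hC K m = tp hC K m → χ u = 1

/-- The depth of `m` (with respect to the walls and to `χ`) is at least `D`. -/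
def Deep (hC : SimplyLaced C) (χ : grp C K → ℂ) (m : Fin r → ℤ) (D : ℕ) : Prop :=
  ∀ i, (D : ℤ) ≤ ip C (al i) m ∧ ∀ a ∈ Bd K (ip C (al i) m + D), χ (xi hC i a) = 1

open Classical in
/-- The function `u t^m o ↦ χ(u)` on the horocycle, `0` elsewhere. -/
noncomputable def wf (hC : SimplyLaced C) (χ : grp C K → ℂ) (m : Fin r → ℤ) : XX C K → ℂ :=
  fun x => if h : ∃ u ∈ Ug C K, x = u • tp hC K m then χ h.choose else 0

/-- The Whittaker coefficient of `f` at `t^m o`. -/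
noncomputable def wh (hC : SimplyLaced C) (N : Polynomial K) (χ : grp C K → ℂ) (m : Fin r → ℤ)
    (f : XX C K → ℂ) : ℂ := H6.pet (U0 C N) (wf hC χ m) f

open Classical in
/-- The volume of the horocycle modulo `U ∩ Γ(N)`. -/
noncomputable def vol (hC : SimplyLaced C) (N : Polynomial K) (m : Fin r → ℤ) : ℝ :=
  ∑ᶠ o : MulAction.orbitRel.Quotient (U0 C N) (XX C K),
    (if o.out ∈ Hor hC K m then 1 else 0) / Nat.card (MulAction.stabilizer (U0 C N) o.out)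

/-- The coordinate of `g` at the simple root `α_i`. -/
noncomputable def sc (hC : SimplyLaced C) (i : Fin r) (g : grp C K) : FF K :=
  -((g.1 (EE (hC.sr i).neg)).1 i)

/-- The character `u ↦ e(res(∑ c_i u_i / N))` of `U`. -/
noncomputable def chi (hC : SimplyLaced C) (e : AddChar K ℂ) (N : Polynomial K)
    (c : Fin r → Polynomial K) (g : grp C K) : ℂ :=
  e (HahnSeries.coeff (∑ i, polyL K (c i) * sc hC i g / polyL K N) 1)

/-- The points of `Hor m` have radius at most `ρ` for the kernel `k`. -/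
def Rad (k : XX C K → XX C K → ℂ) (ρ : ℕ) : Prop :=
  ∀ g : grp C K, k (oo C K) (g • oo C K) ≠ 0 → bnd ρ g ∧ bnd ρ g⁻¹

/-- `f_1, ..., f_n` are orthonormal cusp forms of level `N`. -/
def ONC (N : Polynomial K) {n : ℕ} (f : Fin n → XX C K → ℂ) : Prop :=
  (∀ j, IsCusp N (f j)) ∧ ∀ i j, petersson N (f i) (f j) = if i = j then 1 else 0

end

/-! ## Rows -/

/-- SIE: the Siegel property (with the decomposition `U = (U ∩ Γ) U(𝒪)`). -/
def SieStmt : Prop :=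
  ∀ (r : ℕ) (C : Matrix (Fin r) (Fin r) ℤ) (hC : SimplyLaced C) (K : Type) [Field K],
    (∀ u ∈ Ug C K, ∃ a ∈ Ug C K, a ∈ arith C K 1 ∧ ∃ c ∈ UO hC K, u = a * c) ∧
    (∀ m : Fin r → ℤ, IsDom C m → ∀ c ∈ UO hC K, c • tp hC K m = tp hC K m) ∧
    ∀ N : Polynomial K, 0 < N.natDegree → ∀ γ ∈ cong C K 1 N, ∀ m m' : Fin r → ℤ,
      IsDom C m → IsDom C m' → ∀ u ∈ Ug C K, ∀ u' ∈ Ug C K,
      γ • (u • tp hC K m) = u' • tp hC K m' → γ ∈ Ug C K ∧ m = m'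

/-- UNF: the Poincare series and the unfolding (from SIE, HOR, FIN). -/
def UnfStmt : Prop :=
  ∀ (r : ℕ) (C : Matrix (Fin r) (Fin r) ℤ) (hC : SimplyLaced C) (K : Type) [Field K] [Finite K]
    (N : Polynomial K), 0 < N.natDegree → ∀ (χ : grp C K → ℂ), IsChi N χ →
    ∀ m : Fin r → ℤ, Good hC χ m →
    0 < vol hC N m ∧
    ∃ P : XX C K → ℂ, H6.PV (cong C K 1 N) P ∧
      (∀ m' : Fin r → ℤ, IsDom C m' → ∀ u ∈ Ug C K,
        P (u • tp hC K m') = if m' = m then χ u else 0) ∧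
      (∀ f : XX C K → ℂ, (∀ γ ∈ cong C K 1 N, ∀ x, f (γ • x) = f x) →
        H6.pet (cong C K 1 N) P f = wh hC N χ m f) ∧
      ∀ (f : XX C K → ℂ) (a : ℂ), (∀ u ∈ Ug C K, f (u • tp hC K m) = a * χ u) →
        wh hC N χ m f = a * vol hC N m

/-- GEN: characters of `U` (from COO, RELB, ROOTD): `χ` is trivial at `u` if it is trivial on the
simple coordinates of `u`. -/
def GenxStmt : Prop :=
  ∀ (r : ℕ) (C : Matrix (Fin r) (Fin r) ℤ) (hC : SimplyLaced C) (K : Type) [Field K],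
    (∀ u ∈ Ug C K, ∀ v ∈ Ug C K, ∀ i, sc hC i (u * v) = sc hC i u + sc hC i v) ∧
    (∀ (β : Rt C) (a : FF K), β.Pos → ∀ i, sc hC i (xg hC β a) = if β = hC.sr i then a else 0) ∧
    (∀ (N : Polynomial K) (χ : grp C K → ℂ), IsChi N χ → ∀ u ∈ Ug C K,
      χ u = ∏ i, χ (xi hC i (sc hC i u))) ∧
    (∀ u ∈ Ug C K, ∀ m : Fin r → ℤ, u • tp hC K m = tp hC K m → ∀ i,
      sc hC i u ∈ Bd K (ip C (al i) m))

/-- HEC: a Hecke operator at a deep point of the cone (from GEN, HOR, IWA). -/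
def HecStmt : Prop :=
  ∀ (r : ℕ) (C : Matrix (Fin r) (Fin r) ℤ) (hC : SimplyLaced C) (K : Type) [Field K] [Finite K]
    (N : Polynomial K) (χ : grp C K → ℂ), IsChi N χ →
    ∀ (m : Fin r → ℤ) (ρ : ℕ), Deep hC χ m ρ →
    ∀ k : XX C K → XX C K → ℂ, IsKer k → Rad k ρ →
    ∀ P : XX C K → ℂ, (∀ m' : Fin r → ℤ, IsDom C m' → ∀ u ∈ Ug C K,
        P (u • tp hC K m') = if m' = m then χ u else 0) →
    ∀ u ∈ Ug C K, ∑ᶠ y, k (u • tp hC K m) y * P y = sat hC k 0 * χ u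

/-- BSL: Bessel's inequality for the Whittaker coefficients (from UNF). -/
def BslStmt : Prop :=
  ∀ (r : ℕ) (C : Matrix (Fin r) (Fin r) ℤ) (hC : SimplyLaced C) (K : Type) [Field K] [Finite K]
    (N : Polynomial K), 0 < N.natDegree → ∀ (χ : grp C K → ℂ), IsChi N χ →
    ∀ m : Fin r → ℤ, Good hC χ m → ∀ (n : ℕ) (f : Fin n → XX C K → ℂ), ONC N f →
    ∑ j, ‖wh hC N χ m (f j)‖ ^ 2 ≤ vol hC N m

/-- MEA: the mean value bound (from UNF, HEC, SMU, FLA, KER). -/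
def MeaStmt : Prop :=
  ∀ (r : ℕ) (C : Matrix (Fin r) (Fin r) ℤ) (hC : SimplyLaced C) (K : Type) [Field K] [Finite K]
    (N : Polynomial K), 0 < N.natDegree → ∀ (χ : grp C K → ℂ), IsChi N χ →
    ∀ (m : Fin r → ℤ) (ρ : ℕ), Deep hC χ m (2 * ρ) →
    ∀ (n : ℕ) (f : Fin n → XX C K → ℂ), ONC N f →
    ∀ k : XX C K → XX C K → ℂ, IsKer k → Rad k ρ →
    ∀ lam : Fin n → ℂ, (∀ j x, ∑ᶠ y, k x y * f j y = lam j * f j x) →
    ∑ j, ‖lam j‖ ^ 2 * ‖wh hC N χ m (f j)‖ ^ 2 ≤ (∑ᶠ l, ‖sat hC k l‖ ^ 2) * vol hC N m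

/-- DET: detection of the characters which are not tempered (edit of LOCF). -/
def DetStmt : Prop :=
  ∀ (r : ℕ) (C : Matrix (Fin r) (Fin r) ℤ) (hC : SimplyLaced C), ∃ c : ℕ, 0 < c ∧
    ∀ (K : Type) [Field K] [Finite K] (n : ℕ), 0 < n →
    ∃ (M : ℕ) (k : Fin M → XX C K → XX C K → ℂ), (∀ i, IsKer (k i)) ∧
      (∀ i, Rad (k i) (c * n)) ∧
      ∑ i, ∑ᶠ l, ‖sat hC (k i) l‖ ^ 2 ≤ c / n ∧
      ∀ lam : (grp C K → ℂ) → ℂ, DEN.TMP.IsChr (maxK C K) lam → DEN.TMP.IsHer (maxK C K) lam →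
        ¬ DEN.TMP.IsTmp (maxK C K) lam →
        ∃ i, 1 ≤ ‖lam (fun g : grp C K => k i (oo C K) (g • oo C K))‖

/-- TMW: the forms which are not tempered at `∞` (from MEA, DET, CHI, BSL). -/
def TmwStmt : Prop :=
  ∀ (r : ℕ) (C : Matrix (Fin r) (Fin r) ℤ) (hC : SimplyLaced C), ∃ A : ℕ,
    ∀ (K : Type) [Field K] [Finite K] (N : Polynomial K), 0 < N.natDegree →
    ∀ (χ : grp C K → ℂ), IsChi N χ → ∀ (m : Fin r → ℤ) (D : ℕ), Deep hC χ m D →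
    ∀ (n : ℕ) (f : Fin n → XX C K → ℂ), ONC N f →
    (∀ j, DEN.TMP.EigAllInf (f j)) → (∀ j, ¬ DEN.TMP.TemperedInf (f j)) →
    D * ∑ j, ‖wh hC N χ m (f j)‖ ^ 2 ≤ A * vol hC N m

/-- PAR: Parseval for the Satake transform, and powers of a kernel (from FLA, KER, SMU). -/
def ParStmt : Prop :=
  ∀ (r : ℕ) (C : Matrix (Fin r) (Fin r) ℤ) (hC : SimplyLaced C) (K : Type) [Field K] [Finite K]
    (k : XX C K → XX C K → ℂ) (τ : ℝ) (R : ℕ), IsKer k → 0 ≤ τ → KNorm k τ → Rad k R →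
    ∀ s : ℕ, ∃ k' : XX C K → XX C K → ℂ, IsKer k' ∧ Rad k' (s * R) ∧
      ∑ᶠ l, ‖sat hC k' l‖ ^ 2 ≤ τ ^ (2 * s) ∧
      ∀ (f : XX C K → ℂ) (lam : ℂ), (∀ x, ∑ᶠ y, k x y * f y = lam * f x) →
        ∀ x, ∑ᶠ y, k' x y * f y = lam ^ s * f x

/-- POW: the power saving (from PAR, MEA, KHK, BSL). -/
def PowStmt : Prop :=
  ∀ (r : ℕ) (C : Matrix (Fin r) (Fin r) ℤ) (hC : SimplyLaced C) (K : Type) [Field K] [Finite K]
    (N : Polynomial K), 0 < N.natDegree → ∀ (χ : grp C K → ℂ), IsChi N χ →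
    ∀ (m : Fin r → ℤ) (D : ℕ), Deep hC χ m D →
    ∀ (n : ℕ) (f : Fin n → XX C K → ℂ), ONC N f →
    ∀ (κ : grp C K → ℂ) (R : ℕ), HeckeInf κ R → 1 ≤ R → ∀ (τ σ : ℝ), 0 < τ → 0 ≤ σ →
    NormLE (maxK C K) κ τ → ∀ lam : Fin n → ℂ, (∀ j, EigenInf κ (lam j) (f j)) →
    (∀ j, (Nat.card K : ℝ) ^ (σ * R) * τ ≤ ‖lam j‖) →
    ∑ j, ‖wh hC N χ m (f j)‖ ^ 2 ≤ (Nat.card K : ℝ) ^ (-(σ * ((D : ℝ) - 2 * R))) * vol hC N m

/-- CHX: the explicit characters (from GEN). -/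
def ChxStmt : Prop :=
  ∀ (r : ℕ) (C : Matrix (Fin r) (Fin r) ℤ) (hC : SimplyLaced C) (K : Type) [Field K] [Finite K]
    (e : AddChar K ℂ) (N : Polynomial K) (_ : N ≠ 0) (c : Fin r → Polynomial K),
    IsChi N (chi hC e N c) ∧
    (∀ (i : Fin r) (a : FF K), chi hC e N c (xi hC i a) =
      e (HahnSeries.coeff (polyL K (c i) * a / polyL K N) 1)) ∧
    (∀ (i : Fin r) (a : FF K) (b : ℤ), b + (c i).natDegree + 2 ≤ N.natDegree → a ∈ Bd K b →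
      chi hC e N c (xi hC i a) = 1) ∧
    (∀ m : Fin r → ℤ, IsDom C m → (∀ i, ip C (al i) m + (c i).natDegree + 2 ≤ N.natDegree) →
      Good hC (chi hC e N c) m)

/-- CHRP: the cuspidal character with its restriction to `U` (edit of CHR, `e` not trivial). -/
def ChrpStmt : Prop :=
  ∀ (r : ℕ) (C : Matrix (Fin r) (Fin r) ℤ) (hC : SimplyLaced C) (K : Type) [Field K] [Finite K]
    (P M : Polynomial K), Prime P → M ≠ 0 → P ^ 2 ∣ M → ∀ e : AddChar K ℂ, e ≠ 1 →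
    ∃ ψ : grp C K → ℂ,
      (∀ a ∈ cong C K 1 M, ∀ b ∈ cong C K 1 M, ψ (a * b) = ψ a * ψ b) ∧
      (∀ a ∈ cong C K 1 M, ‖ψ a‖ = 1) ∧
      (∀ a ∈ cong C K 1 (M * P ^ 2), a ∈ cong C K 1 M ∧ ψ a = 1) ∧
      (∀ γ ∈ arith C K 1, ∀ i, ∃ u ∈ rad C K i, u ∈ cong C K 1 M ∧ ψ (γ * u * γ⁻¹) ≠ 1) ∧
      ∀ u ∈ Ug C K, u ∈ cong C K 1 M → ψ u = chi hC e (M * P ^ 2) (fun _ => P) u

/-- LOWA: a cusp form with a large Whittaker coefficient (from CHRP, SIE, UNF, CSP, IDX). -/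
def LowaStmt : Prop :=
  ∀ (r : ℕ) (C : Matrix (Fin r) (Fin r) ℤ) (hC : SimplyLaced C) (K : Type) [Field K] [Finite K]
    (P M : Polynomial K), Prime P → M ≠ 0 → P ^ 2 ∣ M → ∀ e : AddChar K ℂ, e ≠ 1 →
    ∀ m : Fin r → ℤ, IsDom C m →
    (∀ i, ip C (al i) m + P.natDegree + 2 ≤ (M * P ^ 2).natDegree) →
    ∃ f : XX C K → ℂ, IsCusp (M * P ^ 2) f ∧
      wh hC (M * P ^ 2) (chi hC e (M * P ^ 2) (fun _ => P)) m f = vol hC (M * P ^ 2) m ∧
      H6.nsq (cong C K 1 (M * P ^ 2)) f ≤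
        (Nat.card K : ℝ) ^ (2 * P.natDegree * (r + Nat.card (Rt C)) ^ 2) * vol hC (M * P ^ 2) m

/-- LOWB: the lower bound for an orthonormal basis (from LOWA, UNF). -/
def LowbStmt : Prop :=
  ∀ (r : ℕ) (C : Matrix (Fin r) (Fin r) ℤ) (hC : SimplyLaced C) (K : Type) [Field K] [Finite K]
    (P N : Polynomial K), Prime P → N ≠ 0 → P ^ 4 ∣ N → ∀ e : AddChar K ℂ, e ≠ 1 →
    ∀ m : Fin r → ℤ, IsDom C m → (∀ i, ip C (al i) m + P.natDegree + 2 ≤ N.natDegree) →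
    ∀ (n : ℕ) (f : Fin n → XX C K → ℂ), ONC N f →
    (∀ g : XX C K → ℂ, IsCusp N g → g ∈ Submodule.span ℂ (Set.range f)) →
    vol hC N m ≤ (Nat.card K : ℝ) ^ (2 * P.natDegree * (r + Nat.card (Rt C)) ^ 2) *
      ∑ j, ‖wh hC N (chi hC e N (fun _ => P)) m (f j)‖ ^ 2

end Pool.Agent.WHT
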